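import Mathlib
import Pool.Agent.MP_975ab8_al.Defs

namespace Pool.Agent.MP_975ab8_al

/-- The number `N(t)` of `l < p` with `l E ≤ t` and `p - 1 ∣ t - l E`. -/
def levelDim (p E t : ℕ) : ℕ :=
  ((Finset.range p).filter fun l => l * E ≤ t ∧ (p - 1) ∣ t - l * E).card

/-- The exponent `ℓ(w) = ∑_t min (N(t), o #{j : t < g w_j} + [p - 1 ∣ t < (p - 1) w_*])`, where
`g = gcd (E, p - 1)`, the index `j` runs over `g / o` values and `*` is one more index. -/
def ellP (p E o : ℕ) (w : Option (Fin (Nat.gcd E (p - 1) / o)) → ℕ) : ℕ :=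
  ∑ t ∈ Finset.range ((p - 1) * ∑ j, w j), min (levelDim p E t)
    (o * (Finset.univ.filter fun j => t < Nat.gcd E (p - 1) * w (some j)).card +
      if (p - 1) ∣ t ∧ t < (p - 1) * w none then 1 else 0)

/-- The sum of `(-1) ^ |I| / Q ^ ℓ(w + 1_I)` over all `w` with `w_* + o ∑ w_j = s` and all sets
`I` of indices. -/
def zP (p E o : ℕ) (Q : ℚ) (s : ℕ) : ℚ :=
  ∑ w ∈ (Fintype.piFinset fun _ : Option (Fin (Nat.gcd E (p - 1) / o)) =>
      Finset.range (s + 1)).filter (fun w => w none + o * ∑ j, w (some j) = s),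
    ∑ I : Finset (Option (Fin (Nat.gcd E (p - 1) / o))),
      (-1) ^ I.card / Q ^ ellP p E o (fun j => w j + if j ∈ I then 1 else 0)

/-- The coefficient of `X ^ s` in the product over `d ∣ m` of
`(∑_t z t X ^ (c o_d t)) ^ (φ d / o_d)`, where `z` depends on the order `o_d` of `q` mod `d`. -/
noncomputable def eulerCoeff {A : Type*} [CommRing A] (m q c : ℕ) (z : ℕ → ℕ → A) (s : ℕ) : A :=
  PowerSeries.coeff s (∏ d ∈ m.divisors,
    (PowerSeries.mk fun t => if c * ord q d ∣ t then z (ord q d) (t / (c * ord q d)) else 0) ^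
      (Nat.totient d / ord q d))

/-- The valuation term `V_s`. -/
noncomputable def coeffV {k : Type*} [Monoid k] (p E : ℕ) (α : k) (m q s : ℕ) : ℚ :=
  eulerCoeff m q 1 (fun n t =>
    zP p E (orderOf (α ^ ((q ^ n - 1) / Nat.gcd E (p - 1)))) ((q : ℚ) ^ n) t) s

/-- The number of pairs `(a, l)` of naturals with `l < p` and `(p - 1) a + θ l ≤ (p - 1) t`. -/
def latt (p θ t : ℕ) : ℕ :=
  ((Finset.range (t + 1) ×ˢ Finset.range p).filter
    fun x => (p - 1) * x.1 + θ * x.2 ≤ (p - 1) * t).card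

/-- The coefficient of `X ^ (p - 2)` in `F' / F`, where `F = ∑ b_l X ^ l`. -/
noncomputable def logCoeff {K : Type*} [Field K] {p : ℕ} (b : Fin p → K) : K :=
  PowerSeries.coeff (p - 2)
    (PowerSeries.derivative K (∑ l, PowerSeries.C (b l) * PowerSeries.X ^ (l : ℕ)) *
      (∑ l, PowerSeries.C (b l) * PowerSeries.X ^ (l : ℕ))⁻¹)

open Classical in
/-- The exponential sum over `b ∈ K ^ p` with `b_0 ≠ 0` and `b_l = 0` unless
`p - 1 ∣ θ l ≤ (p - 1) t`, divided by `|K| ^ latt`. -/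
noncomputable def twist (p θ : ℕ) {k : Type*} [Field k] (K : Type*) [Field K] [Algebra k K]
    (χ : k → ℂ) (t : ℕ) : ℂ :=
  (∑ᶠ b : Fin p → K,
    if ∀ l : Fin p, ((l : ℕ) = 0 → b l ≠ 0) ∧ (b l ≠ 0 → (p - 1) ∣ θ * l ∧ θ * l ≤ (p - 1) * t)
      then χ (Algebra.trace k K (logCoeff b)) else 0) / (Nat.card K : ℂ) ^ latt p θ t

end Pool.Agent.MP_975ab8_al
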